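import Pool.Agent.helper56.NR.Spec

/-!
# Project nr: module `CEX`
-/

set_option autoImplicit false

open Complex Metric Set Filter Topology MeasureTheory Pool.Agent.helper98.ILF

open EX (ff)

noncomputable section

namespace NR

/-- a sequence shifted by one. -/
def CEX_sh {α : Type} (a : α) (s : ℕ → α) : ℕ → α
  | 0 => a
  | (k + 1) => s k

theorem CEX_cons (n : ℕ) (c : ℂ) (N : ℕ) (mm : ℕ → ℕ) (l l' : ℕ → ℝ) (G g : ℕ → ℂ → ℂ) (m : ℕ) (r r' : ℝ) (G0 g0 : ℂ → ℂ)
    (hC : Chn n c N mm l l' G g) (h1 : mm 0 < m) (h2 : 0 < r) (h3 : r < r') (h4 : ‖vv n c (mm 0) - vv n c m‖ = r)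
    (h5 : Brc n c m (vv n c m) r G0) (h6 : G0 (vv n c m) = c) (h7 : Brc n c (mm 0) (vv n c m) r' g0)
    (h8 : g0 (vv n c (mm 0)) = c) (h9 : ∀ w ∈ ball (vv n c m) r, (ff n c)^[m - mm 0] (G0 w) = g0 w) :
    Chn n c (N + 1) (CEX_sh m mm) (CEX_sh r l) (CEX_sh r' l') (CEX_sh G0 G) (CEX_sh g0 g) := by
  constructor
  · intro k hk
    cases k with
    | zero => exact h1
    | succ k => exact hC.lt k (by omega)
  · exact hC.last
  · intro k hk
    cases k with
    | zero => exact h2
    | succ k => exact hC.pos k (by omega)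
  · intro k hk
    cases k with
    | zero => exact h3
    | succ k => exact hC.lt' k (by omega)
  · intro k hk
    cases k with
    | zero => exact h4
    | succ k => exact hC.dist k (by omega)
  · intro k hk
    cases k with
    | zero => exact h5
    | succ k => exact hC.br k (by omega)
  · intro k hk
    cases k with
    | zero => exact h6
    | succ k => exact hC.ce k (by omega)
  · intro k hk
    cases k with
    | zero => exact h7
    | succ k => exact hC.br' k (by omega)
  · intro k hk
    cases k with
    | zero => exact h8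
    | succ k => exact hC.ce' k (by omega)
  · intro k hk
    cases k with
    | zero => exact h9
    | succ k => exact hC.co k (by omega)

theorem CEX (hMAX : MAX_stmt) : CEX_stmt := by
  intro n c m hn hv
  induction m using Nat.strong_induction_on with
  | _ m ih =>
    rcases Nat.eq_zero_or_pos m with hm | hm
    · refine ⟨0, fun _ => 0, fun _ => 0, fun _ => 0, fun _ => id, fun _ => id, hm.symm, ?_⟩
      constructor
      · intro k hk; omega
      · rfl
      · intro k hk; omega
      · intro k hk; omega
      · intro k hk; omega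
      · intro k hk; omega
      · intro k hk; omega
      · intro k hk; omega
      · intro k hk; omega
      · intro k hk; omega
    · obtain ⟨m', r, r', G0, g0, k1, k2, k3, k4, k5, k6, k7, k8, k9⟩ := hMAX n c m hn hm hv
      obtain ⟨N, mm, l, l', G, g, hmm, hC⟩ := ih m' k1
      subst hmm
      exact ⟨N + 1, CEX_sh m mm, CEX_sh r l, CEX_sh r' l', CEX_sh G0 G, CEX_sh g0 g, rfl,
        CEX_cons n c N mm l l' G g m r r' G0 g0 hC k1 k2 k3 k4 k5 k6 k7 k8 k9⟩

end NR
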